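import Pool.Agent.H91.Delta

set_option autoImplicit false

open Pool.Agent.H91.Delta in
theorem Pool.Agent.Results.MP_c457a4_an.InftySum.result
    (𝕜 : Type) [RCLike 𝕜] (X : Type) [NormedAddCommGroup X] [NormedSpace 𝕜 X] [CompleteSpace X]
    (Y : Type) [NormedAddCommGroup Y] [NormedSpace 𝕜 Y] [CompleteSpace Y]
    (x : X) (y : Y) (hx : CcsDelta 𝕜 x) (hy : CcsDelta 𝕜 y) (a b : ℝ)
    (ha : a ∈ Set.Icc (0 : ℝ) 1) (hb : b ∈ Set.Icc (0 : ℝ) 1) (hab : max a b = 1) :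
    CcsDelta 𝕜 ((a : 𝕜) • x, (b : 𝕜) • y) :=
  sum x y hx hy a b ha hb hab
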